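import Pool.Agent.Braid60.Final

/-!
The braid group on four strings has a finitely generated subgroup with undecidable membership
problem.
-/

set_option autoImplicit false

namespace Pool.Agent.Results.MP_983625_al.FixedSubgroup

/-- Artin's relations between the generators `σ_0, ..., σ_(n-1)` of the braid group on `n + 1`
strings: `σ_i σ_j = σ_j σ_i` for `|i - j| ≥ 2` and `σ_i σ_(i+1) σ_i = σ_(i+1) σ_i σ_(i+1)`. -/
def artinRels (n : ℕ) : Set (FreeGroup (Fin n)) :=
  {r | ∃ i j : Fin n, (i : ℕ) + 2 ≤ (j : ℕ) ∧
      r = FreeGroup.of i * FreeGroup.of j * (FreeGroup.of j * FreeGroup.of i)⁻¹} ∪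
  {r | ∃ i j : Fin n, (j : ℕ) = (i : ℕ) + 1 ∧
      r = FreeGroup.of i * FreeGroup.of j * FreeGroup.of i *
        (FreeGroup.of j * FreeGroup.of i * FreeGroup.of j)⁻¹}

/-- The braid group on `n + 1` strings, generated by `σ_0, ..., σ_(n-1)`. -/
abbrev Braid (n : ℕ) : Type := PresentedGroup (artinRels n)

/-- The braid represented by a word in the letters `σ_i` (written `(i, true)`) and `σ_i⁻¹`
(written `(i, false)`). -/
def ofWord {n : ℕ} (w : List (Fin n × Bool)) : Braid n :=
  (w.map fun x => cond x.2 (PresentedGroup.of (rels := artinRels n) x.1)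
    (PresentedGroup.of (rels := artinRels n) x.1)⁻¹).prod

theorem ofWord_eq {n : ℕ} (w : List (Fin n × Bool)) :
    ofWord w = PresentedGroup.mk (artinRels n) (FreeGroup.mk w) := by
  induction w with
  | nil =>
    have : (FreeGroup.mk [] : FreeGroup (Fin n)) = 1 := rfl
    rw [this, map_one]
    rfl
  | cons x w ih =>
    have e : (FreeGroup.mk (x :: w) : FreeGroup (Fin n)) = FreeGroup.mk [x] * FreeGroup.mk w := by
      rw [FreeGroup.mul_mk]; rfl
    rw [e, map_mul, ← ih]
    unfold ofWord
    rw [List.map_cons, List.prod_cons]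
    congr 1
    obtain ⟨i, b⟩ := x
    cases b
    · have : (FreeGroup.mk [(i, false)] : FreeGroup (Fin n)) = (FreeGroup.of i)⁻¹ := by
        simp [FreeGroup.of, FreeGroup.inv_mk, FreeGroup.invRev]
      rw [this, map_inv]
      rfl
    · rfl

theorem artinRels_three : artinRels 3 = Braid60.rels := by
  ext r
  simp only [artinRels, Braid60.rels, Set.mem_union, Set.mem_ofPred_eq, Set.mem_insert_iff,
    Set.mem_singleton_iff]
  constructor
  · rintro (⟨i, j, h, rfl⟩ | ⟨i, j, h, rfl⟩)
    · fin_cases i <;> fin_cases j <;> simp_all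
    · fin_cases i <;> fin_cases j <;> simp_all
  · rintro (rfl | rfl | rfl)
    · exact Or.inr ⟨0, 1, rfl, rfl⟩
    · exact Or.inr ⟨1, 2, rfl, rfl⟩
    · exact Or.inl ⟨0, 2, le_refl _, rfl⟩

open Braid60 in
theorem main : ∃ H : Subgroup Braid60.B4, H.FG ∧
    ¬ ComputablePred fun w : List (Fin 3 × Bool) =>
      PresentedGroup.mk Braid60.rels (FreeGroup.mk w) ∈ H := by
  obtain ⟨m, α, β, enc, hm, hα, hβ, henc, hund⟩ := exists_collatz
  refine ⟨braidHex.sub m α β, ?_, ?_⟩
  · rw [Hex.sub, Subgroup.fg_iff]
    refine ⟨_, rfl, ?_⟩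
    refine Set.Finite.subset ((List.finite_toSet (gensL m α β)).image braidHex.ev) ?_
    rintro x ⟨g, hg, rfl⟩
    exact ⟨g, hg, rfl⟩
  · intro hdec
    apply hund
    choose L hL using mk_surj
    let U : List (Fin 3 × Bool) := L ((braidHex.p 1)⁻¹)
    let V : List (Fin 3 × Bool) := L (braidHex.p 0)
    let w : ℕ → List (Fin 3 × Bool) := fun n => Nat.rec [] (fun _ y => U ++ (y ++ V)) n
    have hw : Primrec w := by
      have : Primrec₂ (fun (_ : ℕ) (y : List (Fin 3 × Bool)) => U ++ (y ++ V)) :=
        Primrec.list_append.comp (Primrec.const U)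
          (Primrec.list_append.comp Primrec.snd (Primrec.const V))
      exact Primrec.nat_rec₁ [] this
    have hwe : ∀ n, PresentedGroup.mk rels (FreeGroup.mk (w n)) = braidHex.ev (wN n) := by
      intro n
      have h1 : PresentedGroup.mk rels (FreeGroup.mk (w n)) =
          ((braidHex.p 1) ^ n)⁻¹ * (braidHex.p 0) ^ n := by
        induction n with
        | zero =>
          change PresentedGroup.mk rels (FreeGroup.mk []) = _
          have : (FreeGroup.mk [] : FreeGroup (Fin 3)) = 1 := rfl
          rw [this]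
          simp
        | succ n ih =>
          have e : w (n + 1) = U ++ (w n ++ V) := rfl
          rw [e, ← FreeGroup.mul_mk, ← FreeGroup.mul_mk, map_mul, map_mul, ih, hL, hL, pow_succ,
            pow_succ, mul_inv_rev]
          group
      rw [h1]
      simp [wN, Hex.ev, lb, lb']
    rw [ComputablePred.computable_iff] at hdec ⊢
    obtain ⟨f, hf, hfe⟩ := hdec
    refine ⟨fun n => f (w (enc n)), hf.comp (hw.to_comp.comp henc), ?_⟩
    funext n
    have := congrFun hfe (w (enc n))
    rw [eq_iff_iff] at this
    rw [eq_iff_iff, ← mem_iff m hm α β hα hβ, ← hwe, this]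

/-- The braid group on four strings has a finitely generated subgroup `H` for which no algorithm
decides, for a given word `w` in the generators `σ_0, σ_1, σ_2` and their inverses, whether the
braid represented by `w` lies in `H`. -/
theorem result : ∃ H : Subgroup (Braid 3), H.FG ∧
    ¬ ComputablePred fun w : List (Fin 3 × Bool) => ofWord w ∈ H := by
  have key : ∀ R : Set (FreeGroup (Fin 3)), R = Braid60.rels →
      ∃ H : Subgroup (PresentedGroup R), H.FG ∧
        ¬ ComputablePred fun w : List (Fin 3 × Bool) =>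
          PresentedGroup.mk R (FreeGroup.mk w) ∈ H := by
    rintro R rfl
    exact main
  obtain ⟨H, hH, hund⟩ := key (artinRels 3) artinRels_three
  refine ⟨H, hH, fun hdec => hund ?_⟩
  have e : (fun w : List (Fin 3 × Bool) => ofWord w ∈ H) =
      fun w => PresentedGroup.mk (artinRels 3) (FreeGroup.mk w) ∈ H := by
    funext w
    rw [ofWord_eq]
  rw [← e]
  exact hdec

end Pool.Agent.Results.MP_983625_al.FixedSubgroup
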